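import Pool.Agent.H38.T1.Fy

/-!
Quadratic twists of elliptic curves over the rationals with a rational point of order two, whose
Tate-Shafarevich groups have trivial two-primary part over number fields of odd degree and finite
two-primary part over all number fields inside an infinite non-abelian extension.
-/

set_option autoImplicit false
open scoped Classical

namespace Pool.Agent.Results.MP_78d38b_nt.OddDegreeTwists

open NumberField WeierstrassCurve Pool.Agent.H10

/-- The two-primary part of the Tate-Shafarevich group of `W` over `L` is finite: the everywhere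
locally trivial continuous cocycles `f` for which `2 ^ m f` is a coboundary for some `m` fall into
finitely many classes modulo coboundaries. -/
def TwoPartFinite (L : Type) [Field L] [NumberField L] (W : WeierstrassCurve L) : Prop :=
  ∃ S : Set ((AlgebraicClosure L ≃ₐ[L] AlgebraicClosure L) →
      (W.baseChange (AlgebraicClosure L)).toAffine.Point), S.Finite ∧
    ∀ f : (AlgebraicClosure L ≃ₐ[L] AlgebraicClosure L) →
        (W.baseChange (AlgebraicClosure L)).toAffine.Point,
      IsCocycle L W f → IsLocTriv L W f → (∃ m : ℕ, IsCobound L W (fun σ => (2 ^ m) • f σ)) →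
      ∃ g ∈ S, IsCobound L W (fun σ => f σ - g σ)

/-- The conditions on the curve `y^2 = x (x^2 + a x + b)`: `a` is odd, the exponent of two in `b` is
even and at least four, and none of `b`, `a^2 - 4 b` and their product is a square. -/
def Admissible (a b : ℤ) : Prop :=
  Odd a ∧ (∃ (k : ℕ) (c : ℤ), Odd c ∧ b = 2 ^ (2 * k + 4) * c) ∧ ¬ IsSquare b ∧
    ¬ IsSquare (a ^ 2 - 4 * b) ∧ ¬ IsSquare (b * (a ^ 2 - 4 * b))

/-- The curve `y^2 = x (x^2 + a n x + b n^2)` over `K`, the quadratic twist by `n` of the curve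
`y^2 = x (x^2 + a x + b)`. -/
def twist (K : Type) [Field K] (a b n : ℤ) : WeierstrassCurve K :=
  ⟨0, ((a * n : ℤ) : K), 0, ((b * n ^ 2 : ℤ) : K), 0⟩

/-- `K` has odd degree and is contained in `ℚ(ζ_{p^m})` for some `m`. -/
def OddLayer (p : ℕ) (K : Type) [Field K] [NumberField K] : Prop :=
  Odd (Module.finrank ℚ K) ∧ ∃ m : ℕ, Nonempty (K →+* CyclotomicField (p ^ (m + 1)) ℚ)

/-- `M` is an extension of infinite degree of the rationals, generated by square roots of natural
numbers, which embeds in `ℚ_p` for every prime `p` in `P`. -/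
def InfiniteMultiquadratic (P : Finset ℕ) (M : IntermediateField ℚ (AlgebraicClosure ℚ)) : Prop :=
  ¬ FiniteDimensional ℚ M ∧ (∃ D : Set ℕ, M =
    IntermediateField.adjoin ℚ {x | ∃ d ∈ D, x ^ 2 = (d : AlgebraicClosure ℚ)}) ∧
    ∀ (p : ℕ) [Fact p.Prime], p ∈ P → Nonempty (M →+* ℚ_[p])

/-- `L` is contained in a compositum of `K` and `M`. -/
def Inside (K L : Type) [Field K] [NumberField K] [Field L] [NumberField L]
    (M : IntermediateField ℚ (AlgebraicClosure ℚ)) : Prop :=
  ∃ (i : K →ₐ[ℚ] AlgebraicClosure ℚ) (j : L →ₐ[ℚ] AlgebraicClosure ℚ),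
    j.fieldRange ≤ i.fieldRange ⊔ M

/-- Over `K` the curve has finitely many points and its Tate-Shafarevich group has trivial
two-primary part; over the (infinite) compositum of `K` and `M` the curve still has finitely many
points, and over every number field `L` in this compositum its Tate-Shafarevich group has finite
two-primary part. -/
def Controlled (K : Type) [Field K] [NumberField K]
    (M : IntermediateField ℚ (AlgebraicClosure ℚ)) (a b n : ℤ) : Prop :=
  Finite (twist K a b n).toAffine.Point ∧ Sha2Trivial K (twist K a b n) ∧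
    (∀ i : K →ₐ[ℚ] AlgebraicClosure ℚ, Finite (twist (i.fieldRange ⊔ M :
      IntermediateField ℚ (AlgebraicClosure ℚ)) a b n).toAffine.Point) ∧
    ∀ (L : Type) [Field L] [NumberField L], Inside K L M → TwoPartFinite L (twist L a b n)

theorem twist_dual (K : Type) [Field K] (a b n : ℤ) : twist K (-2 * a) (a ^ 2 - 4 * b) n =
    ⟨0, ((-2 * (a * n) : ℤ) : K), 0, (((a ^ 2 - 4 * b) * n ^ 2 : ℤ) : K), 0⟩ := by
  unfold twist
  rw [mul_assoc]

theorem fin_of_le {E E' : IntermediateField ℚ (AlgebraicClosure ℚ)} (h : E ≤ E') (A B : ℤ)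
    (hf : Finite (⟨0, (A : E'), 0, (B : E'), 0⟩ : WeierstrassCurve E').toAffine.Point) :
    Finite (⟨0, (A : E), 0, (B : E), 0⟩ : WeierstrassCurve E).toAffine.Point := by
  have e : (⟨0, (A : E), 0, (B : E), 0⟩ : WeierstrassCurve E).map
      (IntermediateField.inclusion h : E →+* E') = ⟨0, (A : E'), 0, (B : E'), 0⟩ := by
    simp only [WeierstrassCurve.map, map_zero, map_intCast]
  exact Finite.of_injective _ (pm_injective (IntermediateField.inclusion h : E →+* E') e)

theorem controlled_of {K F : Type} [Field K] [NumberField K] [Field F] [NumberField F]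
    {M : IntermediateField ℚ (AlgebraicClosure ℚ)} {a b n : ℤ} (φ : K →+* F)
    (hK : H38T1.Both K a b n) (hF : H38T1.FinAll F M a b n) :
    Controlled K M a b n ∧ Controlled K M (-2 * a) (a ^ 2 - 4 * b) n := by
  obtain ⟨hF1, hF2⟩ := hF
  have hext : ∀ i : K →ₐ[ℚ] AlgebraicClosure ℚ, ∃ i' : F →ₐ[ℚ] AlgebraicClosure ℚ,
      i.fieldRange ≤ i'.fieldRange := by
    intro i
    let _ : Algebra K F := φ.toAlgebra
    let _ : Algebra K (AlgebraicClosure ℚ) := (i : K →+* AlgebraicClosure ℚ).toAlgebra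
    have hsc : IsScalarTower ℚ K F := IsScalarTower.of_algebraMap_eq' (RingHom.ext_rat _ _)
    have halg : Algebra.IsAlgebraic K F := Algebra.IsAlgebraic.tower_top (K := ℚ) K
    let ψ : F →ₐ[K] AlgebraicClosure ℚ := IsAlgClosed.lift
    have hψ : ∀ x : K, ψ (φ x) = i x := fun x => ψ.commutes x
    refine ⟨(ψ : F →+* AlgebraicClosure ℚ).toRatAlgHom, ?_⟩
    rintro _ ⟨x, rfl⟩
    exact ⟨φ x, hψ x⟩
  have hL : ∀ (L : Type) [Field L] [NumberField L], Inside K L M → H38T1.FinBoth L a b n := by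
    rintro L _ _ ⟨i, j, hij⟩
    obtain ⟨i', hi'⟩ := hext i
    exact hF2 L i' j (hij.trans (sup_le_sup_right hi' _))
  refine ⟨⟨hK.1.2, hK.1.1, fun i => ?_, fun L _ _ h => (hL L h).1.1⟩, ?_⟩
  · obtain ⟨i', hi'⟩ := hext i
    exact fin_of_le (sup_le_sup_right hi' M) _ _ (hF1 i' _ rfl).1
  unfold Controlled
  rw [twist_dual]
  refine ⟨hK.2.2, hK.2.1, fun i => ?_, fun L _ _ h => ?_⟩
  · rw [twist_dual]
    obtain ⟨i', hi'⟩ := hext i
    exact fin_of_le (sup_le_sup_right hi' M) _ _ (hF1 i' _ rfl).2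
  · rw [twist_dual]
    exact (hL L h).2.1

/-- Let `E : y^2 = x (x^2 + a x + b)` be admissible, `K₀` a Galois extension of the rationals of odd
degree, `P` a finite set of primes and `S` a finite set of odd primes. If `S` is not empty, suppose
that `a^2 < 4 b`, or that `b` is positive, `a` and `b` are coprime and `|a| = 1` modulo `4`. Then there
are an infinite multiquadratic field `M` in which the primes of `P` split completely and at least
`c x / (log x)^(3/4 + ε)` (`ε > 0` is arbitrary, and `ε = 0` if `S` is empty) squarefree integers `n` with `|n| ≤ x` such that the twists by `n` of `E` and of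
the isogenous curve `E' : y^2 = x (x^2 - 2 a x + a^2 - 4 b)` are controlled, for the same `n` and
`M`, over all subfields `K` of `K₀` and all fields `K` of odd degree inside the fields
`ℚ(ζ_{p^m})`, `p ∈ S`; these contain all layers of the cyclotomic `ℤ_p`-extension of the rationals. -/
theorem result (a b : ℤ) (h : Admissible a b) (S : Finset ℕ) (hS : ∀ p ∈ S, p.Prime ∧ p ≠ 2)
    (hS' : S.Nonempty → a ^ 2 < 4 * b ∨ (0 < b ∧ IsCoprime a b ∧ |a| % 4 = 1))
    (K₀ : Type) [Field K₀] [NumberField K₀] [IsGalois ℚ K₀] (hK₀ : Odd (Module.finrank ℚ K₀))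
    (P : Finset ℕ) (ε : ℝ) (hε : 0 ≤ ε) (hε' : S.Nonempty → 0 < ε) :
    ∃ M : IntermediateField ℚ (AlgebraicClosure ℚ), InfiniteMultiquadratic P M ∧
      ∃ c : ℝ, 0 < c ∧ ∃ X₀ : ℝ, ∀ x : ℝ, X₀ ≤ x → c * x / (Real.log x) ^ (3 / 4 + ε) ≤
        {n : ℤ | |(n : ℝ)| ≤ x ∧ Squarefree n ∧ ∀ (K : Type) [Field K] [NumberField K],
          (Nonempty (K →+* K₀) ∨ ∃ p ∈ S, OddLayer p K) →
            Controlled K M a b n ∧ Controlled K M (-2 * a) (a ^ 2 - 4 * b) n}.ncard := by
  obtain ⟨hao, ⟨k, c, hc, hbc⟩, nb, nD, nbD⟩ := h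
  have hb0 : b ≠ 0 := by
    rintro rfl
    exact nb ⟨0, by ring⟩
  have hD0 : a ^ 2 - 4 * b ≠ 0 := by
    intro h0
    exact nD ⟨0, by rw [h0]; ring⟩
  obtain ⟨j₁, hj₁⟩ := H38T1.exists_level hS hε hε'
  obtain ⟨a', b', j, J, hab', hj, hJ, n, hn, H⟩ := H38T1.final_gen (Int.odd_iff.1 hao)
    ⟨k, c, by rw [hbc, pow_add, pow_add, pow_mul]; norm_num, Int.odd_iff.1 hc⟩ nb nD nbD S hS hS'
    K₀ hK₀ j₁
  have hn0 : n ≠ 0 := hn.ne_zero
  obtain ⟨l, l', hlp, hlp', hne, hl, hl'⟩ := H38T1.two_primes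
    (c := 2 * (b * (a ^ 2 - 4 * b))) (mul_ne_zero two_ne_zero (mul_ne_zero hb0 hD0))
  have : Fact l.Prime := ⟨hlp⟩
  have : Fact l'.Prime := ⟨hlp'⟩
  set Q : Finset ℕ := insert l (insert l' P) with hQ
  have hQl : l ∈ Q := Finset.mem_insert_self _ _
  have hQl' : l' ∈ Q := Finset.mem_insert_of_mem (Finset.mem_insert_self _ _)
  refine ⟨H38T1.Mf (H38T1.Fp a' b' J Q), ⟨H38T1.Mf_inf (H38T1.fp_inf hab' hS hJ Q)
    (fun d hd => hd.1.sqf), ⟨H38T1.Fp a' b' J Q, rfl⟩, fun p _ hp => H38T1.embed_padic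
    fun d hd => hd.2 p (Finset.mem_insert_of_mem (Finset.mem_insert_of_mem hp))⟩, ?_⟩
  obtain ⟨c₁, hc₁, X, hX⟩ := H38T1.count_eps hab' hS j hJ (n₀ := n.natAbs)
    (Int.natAbs_ne_zero.2 hn0) (hj₁ j hj)
  set N : ℝ := |(n : ℝ)| with hN
  have hN1 : 1 ≤ N := by
    rw [hN, ← Int.cast_abs]
    exact_mod_cast Int.one_le_abs hn0
  have hN0 : 0 < N := by linarith
  refine ⟨c₁ / N, div_pos hc₁ hN0, max (N * X) (N * 2), fun x hx => ?_⟩
  have hx1 : X ≤ x / N := by
    rw [le_div_iff₀ hN0, mul_comm]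
    exact (le_max_left _ _).trans hx
  have hx2 : 2 ≤ x / N := by
    rw [le_div_iff₀ hN0, mul_comm]
    exact (le_max_right _ _).trans hx
  have hxx : x / N ≤ x := by
    have h2 : 0 ≤ x := by
      by_contra h3
      push Not at h3
      have := div_neg_of_neg_of_pos h3 hN0
      linarith
    exact div_le_self h2 hN1
  have hlog : 0 < Real.log (x / N) := Real.log_pos (by linarith)
  have hlog2 : Real.log (x / N) ≤ Real.log x := Real.log_le_log (by linarith) hxx
  have h1 : c₁ / N * x / Real.log x ^ (3 / 4 + ε) ≤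
      c₁ * (x / N) / Real.log (x / N) ^ (3 / 4 + ε) := by
    have e : c₁ / N * x = c₁ * (x / N) := by ring
    rw [e]
    refine div_le_div_of_nonneg_left (by positivity) (Real.rpow_pos_of_pos hlog _) ?_
    exact Real.rpow_le_rpow hlog.le hlog2 (by linarith)
  refine h1.trans ((hX (x / N) hx1).trans ?_)
  rw [Nat.cast_le]
  refine Set.ncard_le_ncard_of_injOn (fun d : ℕ => n * (d : ℤ)) ?_ ?_ ?_
  · rintro d ⟨hd1, hd2, hd3⟩
    refine ⟨?_, ?_, ?_⟩
    · push_cast
      rw [abs_mul, Nat.abs_cast, ← hN, mul_comm]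
      exact (le_div_iff₀ hN0).1 hd1
    · refine (squarefree_mul_iff).2 ⟨?_, hn, Int.squarefree_natCast.2 hd2.sqf⟩
      refine IsCoprime.isRelPrime (Int.isCoprime_iff_gcd_eq_one.2 ?_)
      rw [Int.gcd_comm]
      exact hd3
    · intro K _ _ hK
      rcases hK with hφ | ⟨p, hp, hlay⟩
      · obtain ⟨φ⟩ := hφ
        exact controlled_of φ (H d hd2 K (Or.inl ⟨φ⟩)) (H38T1.ctrl2 hb0 hD0 hn0 hab' hne hl hl' hQl
          hQl' (fun d hd => H d hd K₀ (Or.inl ⟨RingHom.id K₀⟩)) hd2)
      · have hF : Fact p.Prime := ⟨(hS p hp).1⟩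
        obtain ⟨hg, hR⟩ := H38T1.layer_real hlay.1 hlay.2
        exact controlled_of (RingHom.id K) (H d hd2 K (Or.inr ⟨p, hp, hR, hlay.1⟩))
          (H38T1.ctrl2 hb0 hD0 hn0 hab' hne hl hl' hQl hQl'
            (fun d hd => H d hd K (Or.inr ⟨p, hp, hR, hlay.1⟩)) hd2)
  · intro d _ d' _ hdd
    have := mul_left_cancel₀ hn0 hdd
    exact_mod_cast this
  · refine (Set.finite_Icc (-⌈x⌉) ⌈x⌉).subset ?_
    rintro m ⟨hm, -⟩
    rw [abs_le] at hm
    constructor
    · have : -(⌈x⌉ : ℝ) ≤ m := by linarith [Int.le_ceil x]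
      exact_mod_cast this
    · have : (m : ℝ) ≤ ⌈x⌉ := by linarith [Int.le_ceil x]
      exact_mod_cast this

end Pool.Agent.Results.MP_78d38b_nt.OddDegreeTwists
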